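import Pool.Agent.CEG.Defs

namespace Pool.CEG
open SimpleGraph Finset

private lemma sum_nn_P05 {V : Type*} [Fintype V] (G : SimpleGraph V) (X : Finset V) :
    ∑ v, nn G v X = ∑ x ∈ X, nn G x univ := by
  classical
  have h1 : ∀ v, nn G v X = ∑ x ∈ X, if ¬ G.Adj v x then 1 else 0 := by
    intro v
    unfold nn
    rw [Finset.card_filter]
  have h2 : ∀ x, nn G x univ = ∑ v, if ¬ G.Adj v x then 1 else 0 := by
    intro x
    unfold nn
    rw [Finset.card_filter]
    refine Finset.sum_congr rfl fun v _ => ?_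
    rw [G.adj_comm]
  rw [Finset.sum_congr rfl fun v _ => h1 v, Finset.sum_congr rfl fun x _ => h2 x,
    Finset.sum_comm]

/-- Double counting of non-adjacent pairs (vertex, frame vertex).  Put `m = R+2`, `n = card V`,
`miss v = ∑ l, nn G v (K l)`.
Upper bound: `∑ v, nn G v (K l) = ∑ x ∈ K l, nn G x univ` (symmetry), so `r * ∑ v, miss v ≤ r*M*n`,
i.e. `∑ v, miss v ≤ M*n`.
Lower bound: let `A` be the set of `v` with `R+2 ≤ nb G v (K i)` for all `i` (`A.card ≤ C0`).
If `v ∉ A` then `nb G v (K i) < m` for some `i`, so `miss v ≥ nn G v (K i) ≥ M - m` (`nb + nn = M`).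
If moreover `v ∈ W`, then (as `v ∉ typ R T G K i`) there is `j ≠ i` with `nn G v (K j) > T`, so
`miss v ≥ (M - m) + T`.  Hence `M n ≥ (M-m)(n - A.card) + T (W.card - A.card)` and so
`T * W.card ≤ m n + (M - m) A.card + T A.card ≤ m n + (M+T) C0`. -/
lemma typ_count {V : Type*} [Fintype V] {r R M T C0 : ℕ} (G : SimpleGraph V)
    (hdeg : ∀ v, r * nn G v univ ≤ Fintype.card V) (K : Fin r → Finset V)
    (hK : IsFrame M G K) (hM : R + 2 ≤ M) (hr : 1 ≤ r)
    (hC : ∀ X : Finset V, (∀ v ∈ X, ∀ i, R + 2 ≤ nb G v (K i)) → X.card ≤ C0)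
    (W : Finset V) (hW : ∀ v ∈ W, ∀ i, v ∉ typ R T G K i) :
    T * W.card ≤ (R + 2) * Fintype.card V + (M + T) * C0 := by
  classical
  obtain ⟨A, hA⟩ : ∃ A : Finset V, A = univ.filter (fun v => ∀ i, R + 2 ≤ nb G v (K i)) :=
    ⟨_, rfl⟩
  have hAc : A.card ≤ C0 := hC A fun v hv => by
    rw [hA, Finset.mem_filter] at hv
    exact hv.2
  obtain ⟨miss, hmiss⟩ : ∃ miss : V → ℕ, ∀ v, miss v = ∑ l, nn G v (K l) :=
    ⟨_, fun _ => rfl⟩
  -- upper bound
  have hup : ∑ v, miss v ≤ M * Fintype.card V := by
    have h1 : ∑ v, miss v = ∑ l, ∑ x ∈ K l, nn G x univ := by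
      rw [Finset.sum_congr rfl fun v _ => hmiss v, Finset.sum_comm]
      exact Finset.sum_congr rfl fun l _ => sum_nn_P05 G (K l)
    have h2 : r * ∑ v, miss v ≤ r * (M * Fintype.card V) := by
      rw [h1, Finset.mul_sum]
      calc ∑ l, r * ∑ x ∈ K l, nn G x univ ≤ ∑ l : Fin r, M * Fintype.card V := by
            refine Finset.sum_le_sum fun l _ => ?_
            rw [Finset.mul_sum]
            calc ∑ x ∈ K l, r * nn G x univ ≤ ∑ x ∈ K l, Fintype.card V :=
                  Finset.sum_le_sum fun x _ => hdeg x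
              _ = M * Fintype.card V := by rw [Finset.sum_const, hK.1 l, smul_eq_mul]
        _ = r * (M * Fintype.card V) := by
            rw [Finset.sum_const, Finset.card_univ, Fintype.card_fin, smul_eq_mul]
    exact Nat.le_of_mul_le_mul_left h2 (by omega)
  -- pointwise lower bound
  have hpt : ∀ v, M + T * (if v ∈ W then 1 else 0) ≤
      miss v + (R + 2) + (M + T) * (if v ∈ A then 1 else 0) := by
    intro v
    by_cases hvA : v ∈ A
    · rw [if_pos hvA, mul_one]
      have : T * (if v ∈ W then 1 else 0) ≤ T := by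
        split_ifs <;> simp
      omega
    · rw [if_neg hvA, mul_zero, add_zero]
      have h1 : ∃ i, nb G v (K i) < R + 2 := by
        by_contra hcon
        push Not at hcon
        exact hvA (by rw [hA, Finset.mem_filter]; exact ⟨Finset.mem_univ v, hcon⟩)
      obtain ⟨i, hi⟩ := h1
      have h2 := nb_add_nn G v (K i)
      rw [hK.1 i] at h2
      by_cases hvW : v ∈ W
      · rw [if_pos hvW, mul_one]
        have h3 : ∃ j, j ≠ i ∧ T < nn G v (K j) := by
          by_contra hcon
          push Not at hcon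
          refine hW v hvW i ?_
          unfold typ
          rw [Finset.mem_filter]
          exact ⟨Finset.mem_univ v, hi, hcon⟩
        obtain ⟨j, hji, hj⟩ := h3
        have h4 : nn G v (K j) + nn G v (K i) ≤ miss v := by
          rw [hmiss, ← Finset.sum_pair (f := fun l => nn G v (K l)) hji]
          exact Finset.sum_le_sum_of_subset (Finset.subset_univ _)
        omega
      · rw [if_neg hvW, mul_zero, add_zero]
        have h4 : nn G v (K i) ≤ miss v := by
          rw [hmiss]
          exact Finset.single_le_sum (f := fun l => nn G v (K l)) (fun l _ => Nat.zero_le _)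
            (Finset.mem_univ i)
        omega
  have hsum := Finset.sum_le_sum fun v (_ : v ∈ (univ : Finset V)) => hpt v
  rw [Finset.sum_add_distrib, Finset.sum_add_distrib, Finset.sum_add_distrib, ← Finset.mul_sum,
    ← Finset.mul_sum, Finset.sum_const, Finset.sum_const, Finset.card_univ, smul_eq_mul,
    smul_eq_mul, Finset.sum_ite_mem, Finset.sum_ite_mem, Finset.univ_inter, Finset.univ_inter,
    Finset.sum_const, Finset.sum_const, smul_eq_mul, smul_eq_mul, mul_one, mul_one] at hsum
  have h5 : (M + T) * A.card ≤ (M + T) * C0 := Nat.mul_le_mul_left _ hAc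
  have h6 : Fintype.card V * M = M * Fintype.card V := mul_comm _ _
  have h7 : Fintype.card V * (R + 2) = (R + 2) * Fintype.card V := mul_comm _ _
  omega

end Pool.CEG
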